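import Pool.Agent.H3RD.W830.RD.Stm

set_option autoImplicit false

/-!
# Project RD (MP_54f573_pr, S19329): elimination by Hall violators
-/

namespace Pool.Agent.W764.RD.Rounds

open Finset Pool.Agent.W830.RD
open scoped Classical

section
variable {α : Type} [PartialOrder α]

/-- the elements of `C` not above `x` -/
noncomputable def bad (x : α) (C : Finset α) : Finset α := C.filter (fun y => ¬ x ≤ y)

theorem mem_bad {x y : α} {C : Finset α} : y ∈ bad x C ↔ y ∈ C ∧ ¬ x ≤ y := by
  unfold bad
  exact Finset.mem_filter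

/-- the maximal number of elements of `C` not above an element of `S` -/
noncomputable def w (S C : Finset α) : ℕ := S.sup (fun x => (bad x C).card)

theorem le_w {S : Finset α} {x : α} (hx : x ∈ S) (C : Finset α) : (bad x C).card ≤ w S C :=
  Finset.le_sup (f := fun x => (bad x C).card) hx

theorem comparable {C : Finset α} (hC : Chn C) (x z : α) : bad x C ⊆ bad z C ∨ bad z C ⊆ bad x C := by
  by_cases h : bad x C ⊆ bad z C
  · exact Or.inl h
  · right
    obtain ⟨a, ha, ha'⟩ := Finset.not_subset.1 h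
    rw [mem_bad] at ha ha'
    have hza : z ≤ a := by
      by_contra hc
      exact ha' ⟨ha.1, hc⟩
    intro b hb
    rw [mem_bad] at hb ⊢
    refine ⟨hb.1, fun hxb => ?_⟩
    rcases hC a ha.1 b hb.1 with h1 | h1
    · exact hb.2 (hza.trans h1)
    · exact ha.2 (hxb.trans h1)

theorem bad_sub {C : Finset α} (hC : Chn C) {S : Finset α} {x z : α} (hx : x ∈ S)
    (hz : (bad z C).card = w S C) : bad x C ⊆ bad z C := by
  rcases comparable hC x z with h | h
  · exact h
  · have h1 : (bad x C).card ≤ (bad z C).card := by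
      rw [hz]
      exact le_w hx C
    rw [Finset.eq_of_subset_of_card_le h h1]

/-- the maximisers -/
noncomputable def N (S C : Finset α) : Finset α := S.filter (fun x => (bad x C).card = w S C)

/-- the conclusion -/
def Concl (S : Finset α) (J : Finset (Finset α)) (k : ℕ) : Prop :=
  ∃ E ⊆ S, E.card ≤ k - 1 ∧ ∃ φ : Finset α → α,
    (∀ C ∈ J, (∀ x ∈ S \ E, ∀ y ∈ C, x ≤ y) ∨
      (φ C ∈ S \ E ∧ ∀ x ∈ S \ E, ∀ y ∈ C, φ C ≤ y → x ≤ y)) ∧
    (∀ C ∈ J, ∀ C' ∈ J, ¬ (∀ x ∈ S \ E, ∀ y ∈ C, x ≤ y) → ¬ (∀ x ∈ S \ E, ∀ y ∈ C', x ≤ y) →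
      φ C = φ C' → C = C')

theorem core [Nonempty α] (J : Finset (Finset α)) (hJ : ∀ C ∈ J, Chn C) :
    ∀ (n : ℕ) (S : Finset α), ∑ C ∈ J, w S C = n → Concl S J n := by
  intro n
  induction n using Nat.strong_induction_on with
  | _ n ih =>
    intro S hn
    have hzero : ∀ C ∈ J, w S C = 0 → ∀ x ∈ S, ∀ y ∈ C, x ≤ y := by
      intro C _ h0 x hx y hy
      by_contra hc
      have h1 : y ∈ bad x C := mem_bad.2 ⟨hy, hc⟩
      have h2 := le_w hx C
      rw [h0] at h2
      have h3 : 0 < (bad x C).card := Finset.card_pos.2 ⟨y, h1⟩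
      omega
    set J1 : Finset (Finset α) := J.filter (fun C => w S C ≠ 0) with hJ1
    by_cases hall : ∀ s : Finset {C // C ∈ J1}, s.card ≤ (s.biUnion (fun C => N S C.1)).card
    · -- Hall's condition
      obtain ⟨f, hf, hfN⟩ := (Finset.all_card_le_biUnion_card_iff_exists_injective
        (fun C : {C // C ∈ J1} => N S C.1)).1 hall
      refine ⟨∅, Finset.empty_subset _, by simp,
        fun C => if h : C ∈ J1 then f ⟨C, h⟩ else Classical.arbitrary α, ?_, ?_⟩
      · intro C hC
        by_cases h : C ∈ J1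
        · right
          simp only [h, dif_pos]
          have h1 := hfN ⟨C, h⟩
          simp only [N, Finset.mem_filter] at h1
          rw [Finset.sdiff_empty]
          refine ⟨h1.1, fun x hx y hy hle => ?_⟩
          by_contra hc
          have h2 := bad_sub (hJ C hC) hx h1.2 (mem_bad.2 ⟨hy, hc⟩)
          exact (mem_bad.1 h2).2 hle
        · left
          rw [Finset.sdiff_empty]
          have h0 : w S C = 0 := by
            by_contra hne
            exact h (Finset.mem_filter.2 ⟨hC, hne⟩)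
          exact hzero C hC h0
      · intro C hC C' hC' h1 h2 h3
        rw [Finset.sdiff_empty] at h1 h2
        have m1 : C ∈ J1 := Finset.mem_filter.2 ⟨hC, fun h => h1 (hzero C hC h)⟩
        have m2 : C' ∈ J1 := Finset.mem_filter.2 ⟨hC', fun h => h2 (hzero C' hC' h)⟩
        simp only [m1, m2, dif_pos] at h3
        exact congrArg Subtype.val (hf h3)
    · -- a violator
      push Not at hall
      obtain ⟨s, hs⟩ := hall
      set E1 : Finset α := s.biUnion (fun C => N S C.1) with hE1
      set J' : Finset (Finset α) := s.image Subtype.val with hJ'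
      have hJ'card : J'.card = s.card :=
        Finset.card_image_of_injective _ Subtype.val_injective
      have hJ'1 : ∀ C ∈ J', C ∈ J1 := by
        intro C hC
        obtain ⟨D, _, rfl⟩ := Finset.mem_image.1 hC
        exact D.2
      have hE1S : E1 ⊆ S := by
        intro x hx
        obtain ⟨C, _, hxC⟩ := Finset.mem_biUnion.1 hx
        exact (Finset.mem_filter.1 hxC).1
      set S1 : Finset α := S \ E1 with hS1
      have hle : ∀ C ∈ J, w S1 C + (if C ∈ J' then 1 else 0) ≤ w S C := by
        intro C _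
        by_cases hC' : C ∈ J'
        · rw [if_pos hC']
          have hpos : w S C ≠ 0 := (Finset.mem_filter.1 (hJ'1 C hC')).2
          have h1 : w S1 C ≤ w S C - 1 := by
            refine Finset.sup_le (fun x hx => ?_)
            have hxS : x ∈ S := (Finset.mem_sdiff.1 hx).1
            have hxE : x ∉ E1 := (Finset.mem_sdiff.1 hx).2
            have h2 := le_w hxS C
            have h3 : (bad x C).card ≠ w S C := by
              intro h4
              apply hxE
              obtain ⟨D, hD, hDC⟩ := Finset.mem_image.1 hC'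
              refine Finset.mem_biUnion.2 ⟨D, hD, ?_⟩
              rw [hDC]
              exact Finset.mem_filter.2 ⟨hxS, h4⟩
            omega
          omega
        · rw [if_neg hC', add_zero]
          exact Finset.sup_mono Finset.sdiff_subset
      have hsum : ∑ C ∈ J, w S1 C + J'.card ≤ n := by
        have h1 := Finset.sum_le_sum hle
        rw [Finset.sum_add_distrib, hn] at h1
        have h2 : ∑ C ∈ J, (if C ∈ J' then 1 else 0) = J'.card := by
          rw [← Finset.sum_filter, Finset.sum_const, smul_eq_mul, mul_one]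
          congr 1
          ext C
          rw [Finset.mem_filter]
          exact ⟨fun h => h.2, fun h => ⟨(Finset.mem_filter.1 (hJ'1 C h)).1, h⟩⟩
        rw [h2] at h1
        exact h1
      have hlt : E1.card < J'.card := by
        rw [hJ'card]
        exact hs
      obtain ⟨E2, hE2, hE2c, φ, hφ1, hφ2⟩ := ih (∑ C ∈ J, w S1 C) (by omega) S1 rfl
      have hsd : S \ (E1 ∪ E2) = S1 \ E2 := by
        ext x
        simp only [hS1, Finset.mem_sdiff, Finset.mem_union]
        tauto
      refine ⟨E1 ∪ E2, Finset.union_subset hE1S (hE2.trans Finset.sdiff_subset), ?_, φ, ?_, ?_⟩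
      · have h1 := Finset.card_union_le E1 E2
        omega
      · rw [hsd]
        exact hφ1
      · rw [hsd]
        exact hφ2

end

/-- The statement `S_ROUNDS` for nonempty `α`. -/
theorem main : ∀ (α : Type) [Nonempty α] [PartialOrder α] (S : Finset α) (J : Finset (Finset α))
  (l : Finset α → ℕ), (∀ C ∈ J, Chn C) →
  (∀ C ∈ J, ∀ x ∈ S, (C.filter (fun y => ¬ x ≤ y)).card ≤ l C) →
  ∃ E ⊆ S, E.card ≤ (∑ C ∈ J, l C) - 1 ∧ ∃ φ : Finset α → α,
    (∀ C ∈ J, (∀ x ∈ S \ E, ∀ y ∈ C, x ≤ y) ∨
      (φ C ∈ S \ E ∧ ∀ x ∈ S \ E, ∀ y ∈ C, φ C ≤ y → x ≤ y)) ∧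
    (∀ C ∈ J, ∀ C' ∈ J, ¬ (∀ x ∈ S \ E, ∀ y ∈ C, x ≤ y) → ¬ (∀ x ∈ S \ E, ∀ y ∈ C', x ≤ y) →
      φ C = φ C' → C = C') := by
  intro α _ _ S J l hJ hl
  have h1 : ∑ C ∈ J, w S C ≤ ∑ C ∈ J, l C :=
    Finset.sum_le_sum (fun C hC => Finset.sup_le (fun x hx => hl C hC x hx))
  obtain ⟨E, hE, hEc, φ, hφ1, hφ2⟩ := core J hJ _ S rfl
  exact ⟨E, hE, by omega, φ, hφ1, hφ2⟩

end Pool.Agent.W764.RD.Rounds
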